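import Pool.Agent.R730.Gad.Two

/-!
# MP_fbe023_nt, Q1 for all `h` when every part contains one block
-/

namespace Pool.Agent.Results.MP_fbe023_nt.Blocks

open R730.Gad

/-- If every part `W_k` contains one block `{j, …, j+s-1}` of consecutive integers with
`g_{j+s} ≥ (h+1) g_j`, then `a ∈ A` is removable iff `a = 0` or `a ∈ A_𝒢(W_i)` for a cofinite
part `W_i`. -/
theorem result {h : ℕ} {g : ℕ → ℕ} (hg : IsGAdic g) {W : Fin h → Set ℕ} (hW : IsPartition W)
    (hblock : ∀ k, ∃ j s, (∀ q, j ≤ q → q < j + s → q ∈ W k) ∧ (h + 1) * g j ≤ g (j + s))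
    (a : ℕ) (ha : a ∈ base g W) :
    IsAsympBasis h (base g W \ {a}) ↔ a = 0 ∨ ∃ i, a ∈ AG g (W i) ∧ ((W i)ᶜ).Finite := by
  obtain ⟨k0, _⟩ := hW.cover 0
  have hh : 0 < h := k0.pos
  constructor
  · intro hb
    by_cases ha0 : a = 0
    · left; exact ha0
    · right
      obtain ⟨i, hi⟩ := (mem_base_iff hg hh W a).1 ha
      refine ⟨i, (mem_AG_iff hg _ _).2 ⟨ha0, hi⟩, ?_⟩
      by_contra hinf
      exact no_block hg hW ha0 hi hinf (fun k _ => hblock k) hb
  · rintro (ha0 | ⟨i, hai, hfin⟩)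
    · rw [ha0]; exact zero_removable hg hW
    · obtain ⟨ha0, hd⟩ := (mem_AG_iff hg _ _).1 hai
      exact cofinite_case hg hW ha0 hd hfin

end Pool.Agent.Results.MP_fbe023_nt.Blocks
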