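import Pool.Agent.R730.Gad.Two

/-!
# MP_fbe023_nt, Q1: necessary and sufficient conditions for all `h`, `𝒲`, `𝒢`
-/

namespace Pool.Agent.Results.MP_fbe023_nt.Criterion

open R730.Gad

/-- Let `a ∈ A_𝒢(W_i)` with `W_i` not cofinite.  Removability of `a` forces an assignment `c` of
the `h` summands to parts which omits a part `W_k`, `k ≠ i`, and satisfies the weight inequality
for all `J`; such an assignment that also omits `W_i` is sufficient; and the inequality for the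
assignment replacing `W_k` by a second copy of `W_i` is sufficient when `a` is a sum of two
elements of `A_𝒢(W_i)`. -/
theorem result {h : ℕ} {g : ℕ → ℕ} (hg : IsGAdic g) {W : Fin h → Set ℕ} (hW : IsPartition W)
    {i : Fin h} {a : ℕ} (ha : a ∈ AG g (W i)) (hinf : ((W i)ᶜ).Infinite) :
    (IsAsympBasis h (base g W \ {a}) →
      ∃ c : Fin h → Fin h, (∃ k, k ≠ i ∧ ∀ l, c l ≠ k) ∧
        ∀ J, wt g (W i)ᶜ J + a % g J ≤ ∑ l, wt g (W (c l)) J) ∧
    ((∃ c : Fin h → Fin h, (∀ l, c l ≠ i) ∧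
        ∀ J, wt g (W i)ᶜ J + a % g J ≤ ∑ l, wt g (W (c l)) J) →
      IsAsympBasis h (base g W \ {a})) ∧
    ((∃ y ∈ AG g (W i), ∃ z ∈ AG g (W i), a = y + z) →
      (∃ k, k ≠ i ∧ ∀ J, wt g (W k) J + a % g J ≤ 2 * wt g (W i) J) →
      IsAsympBasis h (base g W \ {a})) := by
  obtain ⟨ha0, hd⟩ := (mem_AG_iff hg _ _).1 ha
  refine ⟨fun hb => necessity hg hW ha0 hd hinf hb, ?_, ?_⟩
  · rintro ⟨c, hc, hineq⟩
    exact sufficiency hg hW ha0 hd hc hineq
  · rintro ⟨y, hy, z, hz, hyz⟩ ⟨k, hki, hineq⟩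
    exact doubling hg hW hki hy hz hyz hd hineq

end Pool.Agent.Results.MP_fbe023_nt.Criterion
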