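import Pool.Agent.R730.Gad.Two

/-!
# MP_fbe023_nt, Q1 for `h = 2`: the exact set of removable elements
-/

namespace Pool.Agent.Results.MP_fbe023_nt.TwoParts

open R730.Gad

/-- For `h = 2`, every `𝒢`-adic sequence and every partition `ℕ = W_0 ∪ W_1`: an element `a` of
`A = {0} ∪ A_𝒢(W_0) ∪ A_𝒢(W_1)` is removable iff `a = 0`, or `a ∈ A_𝒢(W_i)` where either `W_i` is
cofinite, or every `j ∉ W_i` has `g_{j+1} = 2 g_j` and some digit of `a` in the run of `W_i` just
below `j` is not maximal. -/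
theorem result {g : ℕ → ℕ} (hg : IsGAdic g) {W : Fin 2 → Set ℕ} (hW : IsPartition W)
    (a : ℕ) (ha : a ∈ base g W) :
    IsAsympBasis 2 (base g W \ {a}) ↔
      a = 0 ∨ ∃ i, a ∈ AG g (W i) ∧
        (((W i)ᶜ).Finite ∨
          ∀ j, j ∉ W i → g (j + 1) = 2 * g j ∧
            ∃ q < j, (∀ r, q ≤ r → r < j → r ∈ W i) ∧
              digit g a q < g (q + 1) / g q - 1) := by
  have hiff : ∀ i, a ∈ AG g (W i) → (IsAsympBasis 2 (base g W \ {a}) ↔
      (((W i)ᶜ).Finite ∨
          ∀ j, j ∉ W i → g (j + 1) = 2 * g j ∧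
            ∃ q < j, (∀ r, q ≤ r → r < j → r ∈ W i) ∧
              digit g a q < g (q + 1) / g q - 1)) := by
    intro i hi
    obtain ⟨ha0, hd⟩ := (mem_AG_iff hg _ _).1 hi
    rw [two_case hg hW ha0 hd, ineq_iff hg hd]
    simp only [not_maxrun_iff hg]
  constructor
  · intro hb
    by_cases ha0 : a = 0
    · left; exact ha0
    · right
      obtain ⟨i, hi⟩ := (mem_base_iff hg (by norm_num) W a).1 ha
      have hai : a ∈ AG g (W i) := (mem_AG_iff hg _ _).2 ⟨ha0, hi⟩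
      exact ⟨i, hai, (hiff i hai).1 hb⟩
  · rintro (ha0 | ⟨i, hai, hc⟩)
    · rw [ha0]; exact zero_removable hg hW
    · exact (hiff i hai).2 hc

end Pool.Agent.Results.MP_fbe023_nt.TwoParts
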